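import Mathlib
import Pool.Agent.H251R2.Cops.Basic

set_option autoImplicit false
open N6ef48c04

namespace Pool.Agent.H664R2.Mey

/-- STUB (to be proved in `Pool.Agent.H664R2.MeyGuard`): Aigner--Fromme.  If `u, v` are at distance
`ℓ` in the connected finite graph `H`, the vertex set `P` of a geodesic can be guarded by one cop;
so `k` cops which win on every connected induced subgraph avoiding `P`, plus one more, win. -/
theorem guard_stub {W : Type} [Fintype W] (H : SimpleGraph W) (hH : H.Connected) (ℓ k : ℕ)
    (u v : W) (huv : H.dist u v = ℓ) :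
    ∃ P : Finset W, P.card = ℓ + 1 ∧
      ((∀ C : Set W, C.Nonempty → (∀ x ∈ C, x ∉ P) → (H.induce C).Connected →
        CopsWin (H.induce C) k) → CopsWin H (k + 1)) := by
  sorry

end Pool.Agent.H664R2.Mey
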